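import Pool.Agent.R617.OD.Upper

/-!
# Online matrix-vector multiplication over `ZMod 2`: time times degree over another field

An algorithm may rewrite its whole memory between two vectors, free of charge and with full
knowledge of the matrix, the coins and the earlier vectors; only probes count. Cells contain `w`
bits, and for given coins and earlier vectors every bit of every cell is a polynomial of degree at
most `d` in the entries `0`, `1` of the matrix over a field `K` of characteristic different from
`2` (for instance a decision tree of depth `d`, any function of `d` entries, or, over a field of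
characteristic `p`, a condition modulo `p` on the number of ones). The algorithm is never wrong, but
it may leave out bits of the answer. Definitions: `Pool/Agent/R617/OD/Model.lean`.
-/

set_option autoImplicit false

namespace Pool.Agent.Results.MP_0f1f76_lc.DegreeMemory

open Finset Pool.Agent.R617.OD
open Pool.Agent.R617.LD (IsProb)

open Classical in
/-- (1) On EVERY matrix `M` and every stream of vectors: if each bit is left out with probability at
most `ε`, the expected total number of probes is at least
`(1 - ε) n (|v_1| + ... + |v_n|) / (2 d w)`, `|v|` the number of ones of `v`. (2) In particular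
`(1 - ε) n ^ 3 / (2 d w)` for the vectors `(1, ..., 1)`. (3) An algorithm without errors and
omissions, for all fields at once, with `(n / w + 1) (n / d + 1)` probes for each vector. -/
theorem result (n d w : ℕ) :
    (∀ (K : Type) [Field K], (2 : K) ≠ 0 → ∀ (Ω A : Type) [Fintype Ω] (alg : Alg n Ω A w)
      (μ : Ω → ℝ), IsProb μ → alg.DegreeLE K d → alg.NeverWrong →
      ∀ (M : Mat n) (vs : Fin n → Vec n) (ε : ℝ),
        (∀ q r : Fin n,
          ∑ ω ∈ univ.filter (fun ω => alg.answer ω M vs q r = none), μ ω ≤ ε) →
        (1 - ε) * (n * ∑ q, ((univ.filter (fun c => vs q c = 1)).card : ℝ)) ≤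
          2 * d * w * ∑ ω, μ ω * ∑ q, (alg.probes ω M vs q : ℝ)) ∧
    (∀ (K : Type) [Field K], (2 : K) ≠ 0 → ∀ (Ω A : Type) [Fintype Ω] (alg : Alg n Ω A w)
      (μ : Ω → ℝ), IsProb μ → alg.DegreeLE K d → alg.NeverWrong → ∀ (M : Mat n) (ε : ℝ),
        (∀ q r : Fin n, ∑ ω ∈ univ.filter
          (fun ω => alg.answer ω M (fun _ _ => 1) q r = none), μ ω ≤ ε) →
        (1 - ε) * (n : ℝ) ^ 3 ≤
          2 * d * w * ∑ ω, μ ω * ∑ q, (alg.probes ω M (fun _ _ => 1) q : ℝ)) ∧
    (1 ≤ d → 1 ≤ w → ∃ (A : Type) (_ : Fintype A) (alg : Alg n Unit A w),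
      (∀ (K : Type) [Field K], alg.DegreeLE K d) ∧ ∀ (M : Mat n) (vs : Fin n → Vec n) (q : Fin n),
        (∀ r, alg.answer () M vs q r = some (M.mulVec (vs q) r)) ∧
        alg.probes () M vs q = (n / w + 1) * (n / d + 1)) := by
  refine ⟨?_, ?_, ?_⟩
  · intro K _ h2 Ω A _ alg μ hμ hd hw M vs ε hε
    exact degree_bound K h2 alg hd hw μ hμ ε M vs hε
  · intro K _ h2 Ω A _ alg μ hμ hd hw M ε hε
    have h := degree_bound K h2 alg hd hw μ hμ ε M (fun _ _ => 1) hε
    refine le_trans (le_of_eq ?_) h
    simp only [Finset.filter_true, Finset.card_univ, Fintype.card_fin, Finset.sum_const,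
      nsmul_eq_mul]
    ring
  · intro hd hw
    exact ⟨Adr n d w, inferInstance, blockAlg n d w hw, fun K _ => blockAlg_degree hd hw K,
      fun M vs q => ⟨fun r => blockAlg_answer hd hw M vs q r, blockAlg_probes hw M vs q⟩⟩

end Pool.Agent.Results.MP_0f1f76_lc.DegreeMemory
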