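import Mathlib
import Pool.Agent.R617.SHX.Xor

/-!
# OMV over the field with two elements: circuits in which shared gates depend on few vectors

The decision version of OMV over `ZMod 2`: given an `n × n` matrix `M` and `n` pairs `(u_i, v_i)` of
vectors, is some product `u_iᵀ M v_i` equal to one? The items of the input are the matrix and the
pairs. (Everything that can be computed from the matrix alone is free.)

A circuit over the full binary basis is written as a sequence of formulas, one for each gate whose
value is used more than once (a shared gate) and one for the output. The leaves are tests of the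
input, that is, arbitrary Boolean functions of one item (part 1), or of `w` words of `c` bits, where
each word is an arbitrary function of one item (part 2). Formulas are the circuits without shared
gates. In general there may be any number of shared gates and references to them. A shared gate is
heavy (for `d`) if it depends, directly or by other shared gates, on more than `d` of the pairs
`(u_i, v_i)`; its dependence on the matrix does not matter.

1. For random circuits with error probability at most `1 / 3` and one item in each test, and for all
   `d`: `n ^ 3 ≤ 100 (leaves + d (references + shared gates) + n (references to heavy gates + heavy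
   gates))` (expected numbers). So the size is at least of order `n ^ 3 / d` without heavy gates: an
   algorithm gains only by computing many bits which depend on many of the vectors, as fast matrix
   multiplication does.
2. For tests of `w` words of `c` bits, `n ^ 3 ≤ 100 c w ^ 2 leaves + 100 (…)` with the same `…`.
3. Without sharing, `2 n ^ 3` leaves with one item in each test are enough.

Proof. The pair `(u_i, v_i)` can ask for each of the `n ^ 2` entries of the matrix. If the other pairs
are fixed, the circuit has at most `2 ^ (1 + s) 16 ^ r (16 q ^ (w - 1)) ^ l` subfunctions, where `s` is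
the number of shared gates that depend on the pair, `r` is the number of references to them, and `l` is
the number of leaves that see the pair; the references to the other shared gates are constants. A
shared gate that is not heavy is counted for at most `d` pairs, a heavy one for at most `n`
(`Pool.Agent.TH272.Shr.circuit_heavy`).
-/

set_option autoImplicit false

namespace Pool.Agent.Results.MP_0f1f76_lc.LocalSharing

open Pool.Agent.TH697.Form (IsProb)
open Pool.Agent.TH697.Row (ApproximatesOn)
open Pool.Agent.Y638.RF.Xor (Item product)
open Pool.Agent.TH272.Shr (Circuit mean)
open Pool.Agent.TH272.Shr.ZeroSum (numbers)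

theorem result :
    (∀ n d : ℕ, 5 ≤ n → ∀ (Ω : Type) [Fintype Ω] (μ : Ω → ℝ), IsProb μ →
      (∀ C : Ω → Circuit (Option (Fin n)) (Item n) 1 2,
        ApproximatesOn μ (fun ω => (C ω).eval) (fun _ => True) (product n) →
        (n : ℝ) ^ 3 ≤ 100 * (mean μ (fun ω => (C ω).leaves) +
          d * (mean μ (fun ω => (C ω).refs) + mean μ (fun ω => (C ω).shared)) +
          n * (mean μ (fun ω => (C ω).heavyRefs (numbers n) d) +
            mean μ (fun ω => (C ω).heavyGates (numbers n) d)))) ∧
      (∀ c w : ℕ, 1 ≤ c → 1 ≤ w →
        ∀ C : Ω → Circuit (Option (Fin n)) (Item n) w (2 ^ c),
        ApproximatesOn μ (fun ω => (C ω).eval) (fun _ => True) (product n) →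
        (n : ℝ) ^ 3 ≤ 100 * c * w ^ 2 * mean μ (fun ω => (C ω).leaves) +
          100 * (d * (mean μ (fun ω => (C ω).refs) + mean μ (fun ω => (C ω).shared)) +
            n * (mean μ (fun ω => (C ω).heavyRefs (numbers n) d) +
              mean μ (fun ω => (C ω).heavyGates (numbers n) d))))) ∧
    (∀ n : ℕ, 1 ≤ n → ∃ C : Circuit (Option (Fin n)) (Item n) 1 2,
      (∀ x, C.eval x = product n x) ∧ C.shared = 0 ∧ C.refs = 0 ∧ C.leaves = 2 * n ^ 3) :=
  ⟨fun _ d hn _ _ μ hμ =>
    ⟨fun C hC => Pool.Agent.R617.SHX.single_heavy hn μ hμ C hC d,
      fun _ _ hc hw C hC => Pool.Agent.R617.SHX.main_heavy hn hc hw μ hμ C hC d⟩,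
    fun _ hn => Pool.Agent.R617.SHX.upper hn⟩

end Pool.Agent.Results.MP_0f1f76_lc.LocalSharing
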