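import Mathlib
import Pool.Agent.R617.WFX.Xor

/-!
# OMV over the field with two elements: branching programs which test formulas over machine words

The decision version of OMV over `ZMod 2`: given an `n × n` matrix `M` and `n` pairs `(u_i, v_i)` of
vectors, is some product `u_iᵀ M v_i` equal to one? The items of the input are the matrix and the
pairs.

The formulas (`Fml`) compute with integers: they are built from constants, arbitrary functions of one
item (so everything that can be computed from the matrix alone is free), and arbitrary functions of
`w` words of `c` bits, where each word is an arbitrary function of one item, by sums, products, maxima,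
minima, sign tests `pos` (with the values `0`, `1`), and gates `sym` of any fan-in whose value is an
arbitrary function of the number of positive inputs. All numbers which occur have absolute value at
most `2 ^ v`. A formula accepts if its value is positive. Its size is the number of leaves (constants
are free) plus the number of wires which lead to gates `sym`. In a branching program (`Program`) every
inner node tests whether a formula accepts; its size is the number of inner nodes plus the sizes of
all these formulas.

We show that random branching programs of size at most `s` with error probability at most `1 / 3` need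
`n ^ 3 ≤ 1000 w (v + c w + log₂ n) s`. Multiplication by words of length `c` is a program with one
inner node and size `2 n ^ 2 (⌊n / c⌋ + 1) + 1` with `w = 2`, `v = 1` and words of length `c + 1`, so
the bound is optimal up to a constant factor for all `c` between `log₂ n` and `n`, if `v ≤ c`.

Proof. The pair `(u_i, v_i)` can ask for each of the `n ^ 2` entries of the matrix. We count the
functions of this pair (on the pairs of unit vectors) which arise when the other items are fixed
(Nechiporuk's method). Between the `r` leaves which see the pair there are `O (r)` places at which
other parts of the formula enter, and the function of the value below such a place is one of the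
functions `clamp (a x + b)`, or has few values; so it is given by `O (v)` bits, and this is closed
under composition (`Pool.Agent.Y638.WF.Core`).
-/

set_option autoImplicit false

namespace Pool.Agent.Results.MP_0f1f76_lc.WordPrograms

open Pool.Agent.TH697.Form (IsProb)
open Pool.Agent.TH697.Row (ApproximatesOn)
open Pool.Agent.Y638.WF (Program exists_program)
open Pool.Agent.Y638.RF.Xor (Item product)

theorem result :
    (∀ n c w v : ℕ, 32 ≤ n → 1 ≤ c → 1 ≤ w → 1 ≤ v →
      ∀ (Ω : Type) [Fintype Ω] (μ : Ω → ℝ), IsProb μ →
        ∀ (s : ℕ) (B : Ω → Program (Option (Fin n)) (Item n) w (2 ^ c) (2 ^ v) (fun _ => True) s),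
          ApproximatesOn μ (fun ω => (B ω).eval) (fun _ => True) (product n) →
          (n : ℝ) ^ 3 ≤ 1000 * w * (v + c * w + Real.logb 2 n) * s) ∧
    (∀ n c : ℕ, 1 ≤ c →
      ∃ B : Program (Option (Fin n)) (Item n) 2 (2 ^ (c + 1)) (2 ^ 1) (fun _ => True)
          (2 * n ^ 2 * (n / c + 1) + 1),
        B.nodes = 1 ∧ ∀ x, B.eval x = product n x) := by
  refine ⟨fun _ _ _ _ hn hc hw hv _ _ μ hμ s B hB =>
    Pool.Agent.R617.WFX.bound hn hc hw hv μ hμ s B hB, fun n c hc => ?_⟩
  obtain ⟨F, h1, h2, h3⟩ := Pool.Agent.R617.WFX.upper (n := n) hc (2 ^ 1) (by norm_num)
  obtain ⟨B, h4, h5⟩ := exists_program F h2 (2 * n ^ 2 * (n / c + 1) + 1) (by omega)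
  exact ⟨B, h4, fun x => (h5 x).trans (h3 x)⟩

end Pool.Agent.Results.MP_0f1f76_lc.WordPrograms
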